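import Pool.Agent.Helper84.OX.St

/-!
# Project OX, module LFQ: lifting of the elements of `H`
-/

set_option autoImplicit false

namespace Pool.Agent.Helper25.OX

open Pool.Agent.Helper96.UT hiding StTOP TopV TopE tht Bd VC EC
open Pool.Agent.Helper96.GU Pool.Agent.Helper84.OX

/-- one step of the path -/
private theorem lfq_step {α : Type} (r : FreeMonoid (α × Bool)) (Z : Cyc α) (g : FreeGroup α) (x : α × Bool)
    (h : ed (act ((1 : FreeGroup α) : FreeGroup α ⧸ Hp r Z) g) x ∈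
      CE Z ((1 : FreeGroup α) : FreeGroup α ⧸ Hp r Z)) :
    ∃ (j : ℤ) (h' : FreeGroup α), h' ∈ Hp r Z ∧
      ∀ (Ω : Type) [MulAction (FreeGroup α) Ω] (y : Ω),
        ed (act y g) x = ed (act (act y h') (pre Z.c j)) (Z.c j) := by
  obtain ⟨j, hj⟩ := h
  rcases ed_eq hj with ⟨h1, h2⟩ | ⟨h1, h2⟩
  · refine ⟨j, g * (pre Z.c j)⁻¹, (act_coset_eq_EXZ (Hp r Z) g (pre Z.c j)).1 h1.symm, ?_⟩
    intro Ω _ y
    rw [← act_mul, inv_mul_cancel_right, h2]
  · refine ⟨j, g * lt x * (pre Z.c j)⁻¹, ?_, ?_⟩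
    · refine (act_coset_eq_EXZ (Hp r Z) (g * lt x) (pre Z.c j)).1 ?_
      rw [act_mul]
      exact h1.symm
    · intro Ω _ y
      rw [← act_mul, inv_mul_cancel_right, h2, act_mul, ed_bar]

/-- an element of `H` is a product of an element of `N` and of unit positions -/
private theorem lfq_dec {α : Type} (r : FreeMonoid (α × Bool)) (Z : Cyc α) (hC : StCHW)
    (hr : FreeMonoid.toList r = seg Z.c 0 Z.n) (h : FreeGroup α) (hh : h ∈ Hp r Z) :
    ∃ l : List ℕ, h * (ch Z l)⁻¹ ∈ NT r Z := by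
  obtain ⟨w, hw1, hw2⟩ := fHPV α r Z hr h hh
  obtain ⟨-, hRU, -, -, h5⟩ := hC α r Z hr
  obtain ⟨l, hl, -⟩ := h5 _ hw2
  refine ⟨l, ?_⟩
  have h1 : io r (w ++ FreeGroup.invRev (wd Z l)) = 1 := by
    rw [io_append, ← hl]
    exact one_IM1 r (wd Z l) (hRU l)
  have h2 := fTSC α r Z hr _ h1
  rw [mk_append, mk_invRev, mk_wd, hw1] at h2
  exact h2

theorem hLFQ : StCHW → StHFX → StLFQ := by
  classical
  intro hC hX α r Z X _ _ x₀ h0 h hh
  have hr := h0.word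
  obtain ⟨q, hq, hqh⟩ := fGNH α r Z (FreeGroup α ⧸ Hp r Z) ((1 : FreeGroup α) : FreeGroup α ⧸ Hp r Z)
    (fun g => by
      have e := act_coset_eq_EXZ (Hp r Z) g 1
      rw [act_one, inv_one, mul_one] at e
      exact e) h hh
  rw [InE_iff] at hq
  have hs : ∀ t : Fin q.length, ∃ (j : ℤ) (h' : FreeGroup α), h' ∈ Hp r Z ∧
      ∀ (Ω : Type) [MulAction (FreeGroup α) Ω] (y : Ω),
        ed (act y (FreeGroup.mk (q.take t.1))) q[t.1] =
          ed (act (act y h') (pre Z.c j)) (Z.c j) := fun t =>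
    lfq_step r Z (FreeGroup.mk (q.take t.1)) q[t.1] (hq t.1 t.2)
  choose J H hH hE using hs
  have hd : ∀ t, ∃ l : List ℕ, H t * (ch Z l)⁻¹ ∈ NT r Z := fun t =>
    lfq_dec r Z hC hr (H t) (hH t)
  choose l hl using hd
  refine ⟨Finset.univ.image fun t => H t * (ch Z (l t))⁻¹, Finset.univ.image l, ?_, ?_⟩
  · intro g hg
    rw [Finset.mem_image] at hg
    obtain ⟨t, -, rfl⟩ := hg
    exact hl t
  · intro Ω _ v C hfix hW hG
    refine ⟨q, ?_, hqh⟩
    rw [InE_iff]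
    intro i hi
    have e1 := hE ⟨i, hi⟩ (Ω × X) (v, x₀)
    have e2 : vt (v, x₀) q i = act (v, x₀) (FreeGroup.mk (q.take i)) := rfl
    rw [e2, e1]
    have h1 : act v (H ⟨i, hi⟩) ∈ C := by
      have h2 := hG _ (Finset.mem_image_of_mem (fun t => H t * (ch Z (l t))⁻¹)
        (Finset.mem_univ (⟨i, hi⟩ : Fin q.length)))
      have h3 := hW _ (Finset.mem_image_of_mem l (Finset.mem_univ (⟨i, hi⟩ : Fin q.length)))
      have h4 : act v (H ⟨i, hi⟩) = act v (ch Z (l ⟨i, hi⟩)) := by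
        have h5 : H ⟨i, hi⟩ = (H ⟨i, hi⟩ * (ch Z (l ⟨i, hi⟩))⁻¹) * ch Z (l ⟨i, hi⟩) := by
          rw [inv_mul_cancel_right]
        rw [h5, act_mul]
        exact congrArg (fun z => act z (ch Z (l ⟨i, hi⟩))) h2
      rw [h4]
      exact h3
    have h6 : act x₀ (H ⟨i, hi⟩) = x₀ := hX α r Z X x₀ h0 _ (hH ⟨i, hi⟩)
    have h7 : act (v, x₀) (H ⟨i, hi⟩) ∈ lf x₀ C := by
      rw [mem_lf, act_prod]
      exact ⟨h1, h6⟩
    exact Finset.mem_coe.2 (EC_mem Z (lf x₀ C) (lf_fix h0.hgt hfix) h7 (J ⟨i, hi⟩))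

end Pool.Agent.Helper25.OX
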