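import Pool.Agent.Helper84.OX.St

/-!
# Project OX, module QAB: the absolute inequality and closed paths, by collapses
-/

set_option autoImplicit false

namespace Pool.Agent.Helper25.OX

open Pool.Agent.Helper96.UT hiding StTOP TopV TopE tht Bd VC EC
open Pool.Agent.Helper96.GU Pool.Agent.Helper84.OX

private theorem Nc_mono {α : Type} {Ω : Type} [MulAction (FreeGroup α) Ω] (Z : Cyc α)
    {E E' : Set (Ω × α)} {C C' : Finset Ω} (hE : E ⊆ E') (hC : C ⊆ C') (v : Ω) :
    Nc Z E C v ≤ Nc Z E' C' v := by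
  apply Subgroup.closure_mono
  rintro x ⟨p, h1, h2, h3⟩
  exact ⟨p, InE_mono hE h1, hC h2, h3⟩

private theorem out_empty {T : Type} (V : Finset T) : out V (∅ : Set T) = V := by
  ext x
  rw [mem_out]
  simp

private theorem card_out {T : Type} (V W : Finset T) (h : W ⊆ V) :
    V.card = (out V (W : Set T)).card + W.card := by
  classical
  have h1 : out V (W : Set T) = V \ W := by
    ext x
    rw [mem_out, Finset.mem_sdiff, Finset.mem_coe]
  rw [h1]
  exact (Finset.card_sdiff_add_card_eq_card h).symm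

theorem hQAB : StLR0 → StLR1 → StCNR → StQAB := by
  classical
  intro hLR0 hLR1 hCNR α Z Ω _ E V D v
  induction hN : D.card generalizing E D with
  | zero =>
    intro hv hE hC hV hJ
    have h0 : D = ∅ := Finset.card_eq_zero.1 hN
    subst h0
    obtain ⟨a1, a2⟩ := hLR1 α Z Ω E V v hv hE hJ
    refine ⟨by simpa using a1, fun h x q hq hcl => ?_⟩
    have hH : Hh Z (E : Set (Ω × α)) ∅ v ∅ := a2 (by simpa using h)
    rw [aFOR α Z Ω (E : Set (Ω × α)) v hH x q hq hcl]
    exact Subgroup.one_mem _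
  | succ N ih =>
    intro hv hE hC hV hJ
    obtain ⟨η⟩ := aSTK α Z
    by_cases hT : ∃ u ∈ D, ∀ k : ℤ, TopV Z D η.η u k
    · obtain ⟨u, hu, hTk⟩ := hT
      obtain ⟨k, hS⟩ := aSNG α Z η Ω D hC.fix u hu (fun i _ hb => by
        unfold Bd at hb
        rw [Finset.mem_filter] at hb
        exact hb.2.2 (hTk i))
      have hC' : ∀ y, y ∈ D.erase u ↔ y ∈ D ∧ y ≠ u := fun y => by
        rw [Finset.mem_erase, and_comm]
      obtain ⟨h1, -⟩ := aREQ α Z Ω (E : Set (Ω × α)) D hC u hu k hS (D.erase u) hC'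
      obtain ⟨ρ, -, -, -, -, h5, h6⟩ := aRHO α Z Ω (E : Set (Ω × α)) D hC u hu k hS
      have he0 : ed (act u (pre Z.c k)) (Z.c k) ∈ E := by
        have h := hC.sub u hu
        have h' : ed (act u (pre Z.c k)) (Z.c k) ∈ CE Z u := ⟨k, rfl⟩
        exact Finset.mem_coe.1 (h h')
      have hEs : ((E.erase (ed (act u (pre Z.c k)) (Z.c k)) : Finset (Ω × α)) : Set (Ω × α)) =
          (E : Set (Ω × α)) \ {ed (act u (pre Z.c k)) (Z.c k)} := Finset.coe_erase _ _
      have hcard : (D.erase u).card = N := by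
        rw [Finset.card_erase_of_mem hu]
        omega
      have hcE : (E.erase (ed (act u (pre Z.c k)) (Z.c k))).card + 1 = E.card :=
        Finset.card_erase_add_one he0
      have h7 := ih (E.erase (ed (act u (pre Z.c k)) (Z.c k))) (D.erase u) hcard hv
        (fun x a hxa => hE x a (Finset.mem_of_mem_erase hxa))
        (by rw [hEs]; exact h1)
        (fun u' hu' => hV u' (Finset.mem_of_mem_erase hu'))
        (fun x hx => by
          obtain ⟨w, hw1, hw2⟩ := hJ x hx
          obtain ⟨w', hw3, -, hw4⟩ := h5 v w hw1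
          rw [hEs]
          exact ⟨w', hw3, by rw [hw4, hw2]⟩)
      refine ⟨by omega, fun h x q hq hcl => ?_⟩
      obtain ⟨q', hq', hm, hcl'⟩ := h5 x q hq
      have h8 := h7.2 (by omega) x q' (by rw [hEs]; exact hq') (by rw [hcl', hcl])
      rw [hEs] at h8
      have h9 := Nc_mono Z Set.sdiff_subset (Finset.erase_subset u D) x h8
      have h10 := h6 x q hq
      have h11 : FreeGroup.mk q = (FreeGroup.mk q * (ρ x (FreeGroup.mk q))⁻¹) * FreeGroup.mk q' := by
        rw [hm, inv_mul_cancel_right]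
      rw [h11]
      exact Subgroup.mul_mem _ h10 h9
    · push Not at hT
      obtain ⟨k₀, hk₀⟩ := exists_top η
      have hne : D.Nonempty := by
        rw [← Finset.card_pos]
        omega
      obtain ⟨u, hu⟩ := hne
      have c1 := hCNR α Z η Ω D ∅ ∅ hC.fix (fun x a h => absurd h (Set.notMem_empty _)) k₀ hk₀
        (fun u _ => Set.notMem_empty _) (fun u hu => by
          obtain ⟨k, hk⟩ := hT u hu
          exact ⟨k, Or.inl hk⟩)
      rw [out_empty, out_empty] at c1
      have hVC : VC Z D ⊆ V := by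
        intro x hx
        obtain ⟨u', hu', k, rfl⟩ := (mem_VC' Z D hC.fix x).1 hx
        exact hV u' hu' k
      have hEC : EC Z D ⊆ E := by
        intro e he
        obtain ⟨u', hu', k, rfl⟩ := (mem_EC' Z D hC.fix e).1 he
        exact Finset.mem_coe.1 (hC.sub u' hu' ⟨k, rfl⟩)
      have huV : u ∈ V := hVC (VC_self Z D hC.fix hu)
      have c2 := hLR0 α Ω E V (VC Z D : Set Ω) (EC Z D : Set (Ω × α)) hE
        (fun x a h => ends_EC Z D hC.fix x a h)
        (fun x hx => ⟨u, VC_self Z D hC.fix hu, Jn.trans (Jn.symm (hJ x hx)) (hJ u huV)⟩)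
      have c3 := card_out V (VC Z D) hVC
      have c4 := card_out E (EC Z D) hEC
      have c5 : V.card + D.card ≤ E.card := by omega
      refine ⟨by omega, fun h => by omega⟩

end Pool.Agent.Helper25.OX
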